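import Pool.Agent.R745.WI.Mfd

/-!
# A weakly integrable submanifold in the range `n ≤ 2k` which is not a complete intersection

We answer Q1 of MP_b1931f_gt affirmatively, with `k = 6`, `n = 9`.
-/

set_option autoImplicit false
open Set Metric Function TopologicalSpace
open scoped ContDiff Manifold Topology

namespace Pool.Agent.Results.MP_b1931f_gt.WeaklyIntegrableNotCI

/-- Euclidean `n`-space -/
abbrev E (n : ℕ) := EuclideanSpace ℝ (Fin n)

/-- The atlas of `M` (modelled on the normed space `V`) is oriented: all its coordinate changes have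
positive Jacobian determinant. -/
def OrientedAtlas (V M : Type) [NormedAddCommGroup V] [NormedSpace ℝ V] [TopologicalSpace M]
    [ChartedSpace V M] : Prop :=
  ∀ e ∈ atlas V M, ∀ e' ∈ atlas V M,
    ∀ x ∈ (e.symm.trans e').source, 0 < (fderiv ℝ (e.symm.trans e') x).det

/-- `M` is a smooth (`C^∞`) oriented manifold without boundary, modelled on `V` (Hausdorff, second
countable, not necessarily compact or connected). -/
def IsOrientedManifold (V M : Type) [NormedAddCommGroup V] [NormedSpace ℝ V] [TopologicalSpace M]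
    [ChartedSpace V M] : Prop :=
  T2Space M ∧ SecondCountableTopology M ∧ IsManifold 𝓘(ℝ, V) ∞ M ∧ OrientedAtlas V M

/-- `h : M → W` is a smooth immersion: it is `C^∞` and its derivative is injective at every
point. -/
def IsSmoothImmersion (V M : Type) [NormedAddCommGroup V] [NormedSpace ℝ V] [TopologicalSpace M]
    [ChartedSpace V M] {W : Type} [NormedAddCommGroup W] [NormedSpace ℝ W] (h : M → W) : Prop :=
  ContMDiff 𝓘(ℝ, V) 𝓘(ℝ, W) ∞ h ∧ ∀ m, Injective (mfderiv 𝓘(ℝ, V) 𝓘(ℝ, W) h m)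

/-- `L ⊆ 𝔼ⁿ` is a `k`-submanifold: it is the image of a one-to-one proper immersion `h : M → 𝔼ⁿ`
of a smooth oriented `k`-manifold `M` without boundary. -/
def IsSubmanifold (k n : ℕ) (L : Set (E n)) : Prop :=
  ∃ (M : Type) (_ : TopologicalSpace M) (_ : ChartedSpace (E k) M) (h : M → E n),
    IsOrientedManifold (E k) M ∧ IsSmoothImmersion (E k) M h ∧ Injective h ∧ IsProperMap h ∧
    range h = L

/-- `f : V → W` is a smooth submersion. -/
def IsSmoothSubmersion {V W : Type} [NormedAddCommGroup V] [NormedSpace ℝ V]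
    [NormedAddCommGroup W] [NormedSpace ℝ W] (f : V → W) : Prop :=
  ContDiff ℝ ∞ f ∧ ∀ z, Surjective (fderiv ℝ f z)

/-- `f : V → W` is smooth and `0` is a regular value of `f`. -/
def HasRegularValueZero {V W : Type} [NormedAddCommGroup V] [NormedSpace ℝ V]
    [NormedAddCommGroup W] [NormedSpace ℝ W] (f : V → W) : Prop :=
  ContDiff ℝ ∞ f ∧ ∀ z, f z = 0 → Surjective (fderiv ℝ f z)

/-- `L` is weakly integrable: some smooth submersion `Φ : 𝔼ⁿ → 𝔼ⁿ⁻ᵏ` vanishes on `L`. -/
def IsWI (k n : ℕ) (L : Set (E n)) : Prop :=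
  ∃ Φ : E n → E (n - k), IsSmoothSubmersion Φ ∧ L ⊆ Φ ⁻¹' {0}

/-- `L` is a complete intersection: `L = Ξ⁻¹(0)` for a smooth `Ξ : 𝔼ⁿ → 𝔼ⁿ⁻ᵏ` with regular
value `0`. -/
def IsCI (k n : ℕ) (L : Set (E n)) : Prop :=
  ∃ Ξ : E n → E (n - k), HasRegularValueZero Ξ ∧ L = Ξ ⁻¹' {0}

/-- There are `k < n ≤ 2k` and a weakly integrable `k`-submanifold of `𝔼ⁿ` which is not a complete
intersection. -/
theorem result : ∃ k n : ℕ, k < n ∧ n ≤ 2 * k ∧
    ∃ L : Set (E n), IsSubmanifold k n L ∧ IsWI k n L ∧ ¬ IsCI k n L := by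
  refine ⟨6, 9, by norm_num, by norm_num, R745.WI.L0, ?_, ?_, ?_⟩
  · exact ⟨R745.WI.U0, inferInstance, inferInstance, fun z => R745.WI.H z,
      ⟨inferInstance, inferInstance, inferInstance, R745.WI.atlas_oriented _⟩,
      ⟨R745.WI.contMDiff_H, R745.WI.immersion_H⟩, R745.WI.injective_H, R745.WI.proper_H,
      R745.WI.range_H⟩
  · exact ⟨R745.WI.Phi, ⟨R745.WI.contDiff_Phi, R745.WI.Phi_surj⟩, fun z hz => R745.WI.Phi_zero hz⟩
  · rintro ⟨Ξ, ⟨hΞ, hreg⟩, hL⟩
    exact R745.WI.not_ci (Ξ := Ξ) (hΞ.of_le (by simp)) hreg hL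

end Pool.Agent.Results.MP_b1931f_gt.WeaklyIntegrableNotCI
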